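import Pool.Agent.Lib.MP_305fdd_al.F8.BG.StmC
import Pool.Agent.Lib.MP_305fdd_al.F8.BG.P_ha

/-!
# MP_305fdd_al, congruence subgroups of the Bianchi groups (project CG): the data of the five rings

For each of the rings `ℤ[w]`, `w² = a + b w`, `(a, b) = (-1, 0), (-2, 0), (-1, -1), (-2, -1), (-3, 1)` (the integers of `ℚ(√-d)`,
`d = 1, 2, 3, 7, 11`) there are a congruence subgroup `G₀` of `SL₂(ℤ[w])` and a homomorphism `η : G₀ → F ⋊ ℤ` with the properties `Dat`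
(`five`, in `Five.lean`).
-/

set_option autoImplicit false

namespace Pool.Agent.F8.BG

open Pool.Agent.MP_305fdd_al Pool.Agent.Lib.MP_305fdd_al Pool.Agent.F8
open scoped QuadraticAlgebra

/-- Too many cocycles: a finite dimensional representation of `GR α` with a linear form which is invariant under the peripheral subgroup
`⟨c, g t⟩` but not under `GR α` has a cocycle which is not a coboundary. -/
def HA {ι : Type} (α : MulAut (FreeGroup ι)) (c g : FreeGroup ι) : Prop :=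
  ∀ (k W : Type) [Field k] [AddCommGroup W] [Module k W] [FiniteDimensional k W]
    (σ : GR α →* Module.End k W) (lam : W →ₗ[k] k),
  (∀ x, lam (σ (iR α c) x) = lam x) → (∀ x, lam (σ (iR α g * tR α) x) = lam x) →
  (∃ h x, lam (σ h x) ≠ lam x) →
  ∃ z : GR α → W, (∀ h h', z (h * h') = z h + σ h (z h')) ∧ ¬ ∃ f : W, ∀ h, z h = f - σ h f

/-- A parabolic loop of level one: an occurrence `w i = u ++ i :: v` of the letter `i` in its image under the positive automorphism `α ^ N`, not at the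
beginning, such that `v t ^ N` is in the peripheral subgroup. So the loop `u⁻¹ t ^ N = x_i (v t ^ N) x_i⁻¹` is parabolic (`loop_eq`). -/
def Loop {ι : Type} (α : MulAut (FreeGroup ι)) (N : ℕ) (w : ι → List ι) (c g : FreeGroup ι) : Prop :=
  ∃ (i : ι) (u v : List ι) (k : ℤ), u ≠ [] ∧ w i = u ++ i :: v ∧
    iR α (pw v) * tR α ^ N = iR α c ^ k * (iR α g * tR α) ^ N

/-- The data of the five rings. -/
structure Dat {a b : ℤ} {ι : Type} (α : MulAut (FreeGroup ι)) (N : ℕ) (w : ι → List ι) (M : ℕ)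
    (c g : FreeGroup ι) (G₀ : Subgroup (GQ a b)) (η : G₀ →* GR α) : Prop where
  /-- the ring is imaginary quadratic -/
  neg : b ^ 2 + 4 * a < 0
  /-- the exponent -/
  one_le : 1 ≤ N
  /-- a power of `α` is positive -/
  pos : Pos (α ^ N) w
  /-- some letter is the first letter of its image -/
  fst : ∃ i, (w i).head? = some i
  /-- `α` itself is positive (`N = 1`) or negative (`N = 2`): the images of the letters are inverses of positive words -/
  sgn : ∃ (s : ℤˣ) (v : ι → List ι), (∀ i, α (FreeGroup.of i) = pw (v i) ^ (s : ℤ)) ∧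
    (∀ i, v i ≠ []) ∧ ((s = 1 ∧ N = 1) ∨ (s = -1 ∧ N = 2))
  /-- the peripheral elements commute -/
  conj : g * α c * g⁻¹ = c
  /-- the homomorphism -/
  eta : EtaQ α M c g G₀ η
  /-- too many cocycles -/
  ha : HA α c g
  /-- a parabolic loop -/
  loop : Loop α N w c g

/-- the element of a loop -/
theorem loop_eq {ι : Type} {α : MulAut (FreeGroup ι)} {N : ℕ} {w : ι → List ι}
    (hw : ∀ i, (α ^ N) (FreeGroup.of i) = pw (w i)) {i : ι} {u v : List ι} (h : w i = u ++ i :: v) :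
    (iR α (pw u))⁻¹ * tR α ^ N =
      iR α (FreeGroup.of i) * (iR α (pw v) * tR α ^ N) * (iR α (FreeGroup.of i))⁻¹ := by
  have h1 := tR_pow_conj α N (FreeGroup.of i)
  rw [hw, h, pw_append, pw_cons, map_mul, map_mul] at h1
  have h2 : tR α ^ N * (iR α (FreeGroup.of i))⁻¹ =
      (iR α (pw u) * (iR α (FreeGroup.of i) * iR α (pw v)))⁻¹ * tR α ^ N := by
    rw [← h1]; group
  calc (iR α (pw u))⁻¹ * tR α ^ N
      = iR α (FreeGroup.of i) * iR α (pw v) *
        ((iR α (pw u) * (iR α (FreeGroup.of i) * iR α (pw v)))⁻¹ * tR α ^ N) := by group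
    _ = _ := by rw [← h2]; group

/-- `HA` if `c` is an element of a basis -/
theorem HA_of_prim {ι : Type} [Finite ι] {α : MulAut (FreeGroup ι)} {c g : FreeGroup ι}
    (hc : Prim c) (hg : g * α c * g⁻¹ = c) : HA α c g := by
  intro k W _ _ _ _ σ lam h1 h2 h3
  refine p_ha ι α c g hc hg k W σ lam ?_ h1 h2
  rintro rfl
  obtain ⟨h, x, hx⟩ := h3
  exact hx rfl

/-- the matrix `[[1, x], [0, 1]]` -/
def eU {R : Type} [CommRing R] (x : R) : SL2 R := AB.mx 1 x 0 1 (by ring)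
/-- the matrix `[[1, 0], [x, 1]]` -/
def eV {R : Type} [CommRing R] (x : R) : SL2 R := AB.mx 1 0 x 1 (by ring)

theorem eUV_tr {R : Type} [CommRing R] (x : R) :
    tr (eU x * eV x * (eU x)⁻¹ * (eV x)⁻¹) = 2 + x ^ 4 := by
  unfold eU eV
  rw [AB.mx_inv, AB.mx_inv, AB.mx_mul, AB.mx_mul, AB.mx_mul, AB.mx_tr]
  ring

theorem eU_map {R S : Type} [CommRing R] [CommRing S] (f : R →+* S) (x : R) :
    SLm f (eU x) = eU (f x) := by
  unfold eU
  rw [AB.mx_map]
  apply AB.mx_congr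
  · exact map_one f
  · rfl
  · exact map_zero f
  · exact map_one f

theorem eV_map {R S : Type} [CommRing R] [CommRing S] (f : R →+* S) (x : R) :
    SLm f (eV x) = eV (f x) := by
  unfold eV
  rw [AB.mx_map]
  apply AB.mx_congr
  · exact map_one f
  · exact map_zero f
  · rfl
  · exact map_one f

/-- an integer which is zero in `(ℤ/m)[w]` is divisible by `m` -/
theorem Qf_intCast_eq_zero {a b : ℤ} {m : ℕ} (n : ℤ) (h : (n : Qf a b (ZMod m)) = 0) : (m : ℤ) ∣ n := by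
  have h1 := congrArg QuadraticAlgebra.re h
  rw [← ZMod.intCast_zmod_eq_zero_iff_dvd]
  simpa using h1

/-- two elements of `G₀` whose commutator does not have trace `2` or `-2`, modulo some `m` -/
theorem com_of_lev {a b : ℤ} {M : ℕ} {G₀ : Subgroup (GQ a b)}
    (lev : ∀ x : GQ a b, rdq a b M x = 1 → x ∈ G₀) (ne : M ≠ 0) :
    ∃ (m : ℕ) (_ : NeZero m) (x₀ y₀ : G₀),
      tr (rdq a b m (x₀ * y₀ * x₀⁻¹ * y₀⁻¹ : G₀).val) ≠ 2 ∧
      tr (rdq a b m (x₀ * y₀ * x₀⁻¹ * y₀⁻¹ : G₀).val) ≠ -2 := by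
  have h0 : Qfm a b (Int.castRingHom (ZMod M)) ((M : ℤ) : Qf a b ℤ) = 0 := by
    rw [map_intCast]
    apply QuadraticAlgebra.ext <;> simp
  have hx : (eU ((M : ℤ) : Qf a b ℤ) : GQ a b) ∈ G₀ := by
    apply lev
    unfold rdq
    rw [eU_map, h0]
    exact AB.mx_one.symm
  have hy : (eV ((M : ℤ) : Qf a b ℤ) : GQ a b) ∈ G₀ := by
    apply lev
    unfold rdq
    rw [eV_map, h0]
    exact AB.mx_one.symm
  have hM : 0 < (M : ℤ) ^ 4 := by positivity
  refine ⟨M ^ 4 + 5, ⟨by omega⟩, ⟨_, hx⟩, ⟨_, hy⟩, ?_⟩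
  have h1 : tr (rdq a b (M ^ 4 + 5) ((⟨_, hx⟩ * ⟨_, hy⟩ * (⟨_, hx⟩ : G₀)⁻¹ * (⟨_, hy⟩ : G₀)⁻¹ : G₀)).val) =
      ((2 + (M : ℤ) ^ 4 : ℤ) : Qf a b (ZMod (M ^ 4 + 5))) := by
    have h2 : ((⟨_, hx⟩ * ⟨_, hy⟩ * (⟨_, hx⟩ : G₀)⁻¹ * (⟨_, hy⟩ : G₀)⁻¹ : G₀)).val =
      eU ((M : ℤ) : Qf a b ℤ) * eV ((M : ℤ) : Qf a b ℤ) * (eU ((M : ℤ) : Qf a b ℤ))⁻¹ * (eV ((M : ℤ) : Qf a b ℤ))⁻¹ := rfl
    rw [h2]
    unfold rdq
    rw [tr_map, eUV_tr]
    simp only [map_add, map_pow, map_intCast, map_ofNat, Int.cast_add, Int.cast_pow, Int.cast_ofNat]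
  rw [h1]
  constructor
  · intro h
    have h3 := Qf_intCast_eq_zero ((M : ℤ) ^ 4) (a := a) (b := b) (m := M ^ 4 + 5) (by
      have : (((M : ℤ) ^ 4 : ℤ) : Qf a b (ZMod (M ^ 4 + 5))) = ((2 + (M : ℤ) ^ 4 : ℤ) : Qf a b (ZMod (M ^ 4 + 5))) - 2 := by
        push_cast; ring
      rw [this, h, sub_self])
    have h4 := Int.le_of_dvd hM h3
    push_cast at h4
    omega
  · intro h
    have h3 := Qf_intCast_eq_zero ((M : ℤ) ^ 4 + 4) (a := a) (b := b) (m := M ^ 4 + 5) (by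
      have : (((M : ℤ) ^ 4 + 4 : ℤ) : Qf a b (ZMod (M ^ 4 + 5))) = ((2 + (M : ℤ) ^ 4 : ℤ) : Qf a b (ZMod (M ^ 4 + 5))) + 2 := by
        push_cast; ring
      rw [this, h, neg_add_cancel])
    have h4 := Int.le_of_dvd (by omega) h3
    push_cast at h4
    omega

end Pool.Agent.F8.BG
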