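import Pool.Agent.Lib.MP_305fdd_al.F8.BG.Five.Tr
import Pool.Agent.Lib.MP_305fdd_al.F8.PIC.P_f5
import Pool.Agent.Lib.MP_305fdd_al.F8.PIC.P_e1
import Pool.Agent.Lib.MP_305fdd_al.F8.PIC.P_e2
import Pool.Agent.Lib.MP_305fdd_al.F8.PIC.P_eta

/-!
# MP_305fdd_al, project CG: the data for the Gaussian integers
-/

set_option autoImplicit false

namespace Pool.Agent.F8.BG

open Pool.Agent.MP_305fdd_al Pool.Agent.Lib.MP_305fdd_al Pool.Agent.F2X Pool.Agent.F8
  Pool.Agent.F8.HN Pool.Agent.F8.D1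
open scoped QuadraticAlgebra

namespace Five1

/-- the words -/
def w1 : Fin 2 → List (Fin 2) := ![[0, 1, 1], [1, 0, 1, 1, 0, 1, 1]]

theorem ct_of (i : Fin 2) : (ct al1 ^ 1) (FreeGroup.of i) = pw (w1 i) := by
  rw [pow_one]
  fin_cases i
  · show ct al1 ga = pw [0, 1, 1]
    rw [← th_x0, ct_th]
    unfold x0
    simp only [map_mul, map_inv, al1_ga, al1_gb, th_ga, th_gb, pw_cons, pw_nil]
    group
  · show ct al1 gb = pw [1, 0, 1, 1, 0, 1, 1]
    rw [← th_ga, ct_th]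
    simp only [map_mul, map_inv, al1_ga, th_ga, th_gb, pw_cons, pw_nil]
    group

theorem pos : Pos (ct al1 ^ 1) w1 :=
  Pos_two ct_of (by decide) (by decide) (Turn.base 0 0 1 (by decide)) (Turn.base 1 1 0 (by decide))
    (Turn.base 0 1 1 (by decide))

/-- the exponents modulo two -/
def ex : F →* Multiplicative (ZMod 2) × Multiplicative (ZMod 2) where
  toFun w := (Multiplicative.ofAdd ((vec w 0 : ℤ) : ZMod 2), Multiplicative.ofAdd ((vec w 1 : ℤ) : ZMod 2))
  map_one' := by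
    rw [vec_one]
    show (Multiplicative.ofAdd ((0 : ℤ) : ZMod 2), Multiplicative.ofAdd ((0 : ℤ) : ZMod 2)) = 1
    rw [Int.cast_zero]; rfl
  map_mul' v w := by
    rw [vec_mul, Pi.add_apply, Pi.add_apply, Int.cast_add, Int.cast_add]; rfl

theorem ex_ga : ex ga = (Multiplicative.ofAdd 1, 1) := by
  show (Multiplicative.ofAdd ((vec ga 0 : ℤ) : ZMod 2), Multiplicative.ofAdd ((vec ga 1 : ℤ) : ZMod 2)) = _
  rw [vec_of]; rfl
theorem ex_gb : ex gb = (1, Multiplicative.ofAdd 1) := by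
  show (Multiplicative.ofAdd ((vec gb 0 : ℤ) : ZMod 2), Multiplicative.ofAdd ((vec gb 1 : ℤ) : ZMod 2)) = _
  rw [vec_of]; rfl

theorem ex_even {w : F} (h : ex w = 1) : Even (vec w 0) ∧ Even (vec w 1) := by
  have h1 : ((vec w 0 : ℤ) : ZMod 2) = 0 := congrArg (fun z => Multiplicative.toAdd z.1) h
  have h2 : ((vec w 1 : ℤ) : ZMod 2) = 0 := congrArg (fun z => Multiplicative.toAdd z.2) h
  rw [ZMod.intCast_zmod_eq_zero_iff_dvd] at h1 h2
  exact ⟨even_iff_two_dvd.2 h1, even_iff_two_dvd.2 h2⟩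

/-- the exponents modulo two -/
def pr : G1 →* Multiplicative (ZMod 2) × Multiplicative (ZMod 2) :=
  AB.liftA ex 1 (by
    intro w
    have h : ex.comp al1.toMonoidHom = ex := by
      apply F2X.hom_ext
      · show ex (al1 ga) = _
        rw [al1_ga]
        simp only [map_mul, map_inv, ex_ga, ex_gb]
        decide
      · show ex (al1 gb) = _
        rw [al1_gb]
        simp only [map_mul, map_inv, ex_ga, ex_gb]
        decide
    rw [one_mul, inv_one, mul_one]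
    exact DFunLike.congr_fun h w)

theorem pr_iA (w : F) (n : ℤ) : pr (iA al1 w * tA al1 ^ n) = ex w := by
  rw [map_mul, map_zpow]
  unfold pr
  rw [AB.liftA_iA, AB.liftA_tA, one_zpow, mul_one]

/-- the homomorphism in the form of `EtaQ` -/
def et (η : PIC.G5 →* G1) : PIC.G5 →* GR (ct al1) := (eAR al1).toMonoidHom.comp η

theorem lev (x : GQ (-1) 0) (h : rdq (-1) 0 4 x = 1) : (x : PIC.GG) ∈ PIC.G5 := by
  have h1 : PIC.rd 4 x = 1 := by
    have h2 : ∀ i k, Qfm (-1) 0 (Int.castRingHom (ZMod 4)) (x.val i k) =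
        (1 : SL2 (Qf (-1) 0 (ZMod 4))).val i k := fun i k => by rw [← h]; rfl
    have h3 : ∀ (i k : Fin 2) (u v : ZMod 4), (1 : SL2 (Qf (-1) 0 (ZMod 4))).val i k = ⟨u, v⟩ →
        (1 : SL2 (E1 (ZMod 4))).val i k = ⟨u, v⟩ := by
      intro i k u v e
      have e1 := congrArg QuadraticAlgebra.re e
      have e2 := congrArg QuadraticAlgebra.im e
      apply QuadraticAlgebra.ext
      · rw [← e1]
        fin_cases i <;> fin_cases k <;> rfl
      · rw [← e2]
        fin_cases i <;> fin_cases k <;> rfl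
    apply Subtype.ext
    ext1 i k
    exact (h3 i k _ _ (h2 i k).symm).symm
  show PIC.rd 4 x ∈ PIC.A5
  rw [h1]
  exact PIC.A5.one_mem

theorem etaQ {η : PIC.G5 →* G1} (h : PIC.Eta η) :
    EtaQ (a := -1) (b := 0) (ct al1) 4 (th PIC.cc) 1 PIC.G5 (et η) where
  ker x := by
    rw [← h.ker x]
    exact (eAR al1).map_eq_one_iff
  fin := by
    have h2 : (pr.comp (eAR al1).symm.toMonoidHom).ker.FiniteIndex := Subgroup.finiteIndex_ker _
    have h1 : (pr.comp (eAR al1).symm.toMonoidHom).ker ≤ (et η).range := by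
      intro x hx
      have hx' : pr ((eAR al1).symm x) = 1 := hx
      obtain ⟨w, n, e⟩ := GA_cases al1 ((eAR al1).symm x)
      rw [e, pr_iA] at hx'
      obtain ⟨h3, h4⟩ := ex_even hx'
      obtain ⟨z, hz⟩ := h.sur w n h3 h4
      refine ⟨z, ?_⟩
      show eAR al1 (η z) = x
      rw [hz, ← e, MulEquiv.apply_symm_apply]
    exact Subgroup.finiteIndex_of_le h1
  lev := lev
  ne := by decide
  par x hx := h.par x (eAR_par al1 PIC.cc (η x) hx)

theorem dat {η : PIC.G5 →* G1} (h : PIC.Eta η) :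
    Dat (a := -1) (b := 0) (ct al1) 1 w1 4 (th PIC.cc) 1 PIC.G5 (et η) where
  neg := by norm_num
  one_le := le_rfl
  pos := pos
  fst := ⟨0, rfl⟩
  sgn := ⟨1, w1, fun i => by
    rw [← ct_of, pow_one, Units.val_one, zpow_one], by decide, Or.inl ⟨rfl, rfl⟩⟩
  conj := th_cc_conj PIC.al1_cc
  eta := etaQ h
  ha := HA_ct PIC.al1_cc
  loop := Loop_ct (u := [1, 0, 1, 1, 0, 1]) (by decide) rfl _

/-- the data for `ℤ[i]` -/
theorem ex_dat : ∃ (ι : Type) (_ : Finite ι) (α : MulAut (FreeGroup ι)) (N : ℕ) (w : ι → List ι)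
    (M : ℕ) (c g : FreeGroup ι) (G₀ : Subgroup (GQ (-1) 0)) (η : G₀ →* GR α),
    Dat α N w M c g G₀ η := by
  obtain ⟨η, h⟩ := PIC.p_eta (PIC.p_e1 PIC.p_f5) (PIC.p_e2 (PIC.p_e1 PIC.p_f5))
  exact ⟨Fin 2, inferInstance, _, _, _, _, _, _, _, _, dat h⟩

end Five1

end Pool.Agent.F8.BG
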