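import Pool.Agent.Lib.MP_305fdd_al.F8.BG.Five.Tr
import Pool.Agent.Lib.MP_305fdd_al.F8.PIC7.P_f6
import Pool.Agent.Lib.MP_305fdd_al.F8.PIC7.P_e1
import Pool.Agent.Lib.MP_305fdd_al.F8.PIC7.P_e2
import Pool.Agent.Lib.MP_305fdd_al.F8.PIC7.P_eta

/-!
# MP_305fdd_al, project CG: the data for the integers of `ℚ(√-7)`
-/

set_option autoImplicit false

namespace Pool.Agent.F8.BG

open Pool.Agent.MP_305fdd_al Pool.Agent.Lib.MP_305fdd_al Pool.Agent.F2X Pool.Agent.F8
  Pool.Agent.F8.HN Pool.Agent.F8.D7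
open scoped QuadraticAlgebra

namespace Five7

/-- the words -/
def w7 : Fin 2 → List (Fin 2) := ![[0, 1, 1], [1, 0, 1, 1]]

theorem ct_of (i : Fin 2) : (ct al7 ^ 1) (FreeGroup.of i) = pw (w7 i) := by
  rw [pow_one]
  fin_cases i
  · show ct al7 ga = pw [0, 1, 1]
    rw [← th_x0, ct_th]
    unfold x0
    simp only [map_mul, map_inv, al7_ga, al7_gb, th_ga, th_gb, pw_cons, pw_nil]
    group
  · show ct al7 gb = pw [1, 0, 1, 1]
    rw [← th_ga, ct_th]
    simp only [map_mul, map_inv, al7_ga, th_ga, th_gb, pw_cons, pw_nil]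
    group

theorem pos : Pos (ct al7 ^ 1) w7 :=
  Pos_two ct_of (by decide) (by decide) (Turn.base 0 0 1 (by decide)) (Turn.base 1 1 0 (by decide))
    (Turn.base 0 1 1 (by decide))

/-- the length modulo two -/
def ex : F →* Multiplicative (ZMod 2) where
  toFun w := Multiplicative.ofAdd ((vec w 0 + vec w 1 : ℤ) : ZMod 2)
  map_one' := by
    rw [vec_one]
    show Multiplicative.ofAdd (((0 : ℤ) + 0 : ℤ) : ZMod 2) = 1
    rw [add_zero, Int.cast_zero]; rfl
  map_mul' v w := by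
    rw [vec_mul, Pi.add_apply, Pi.add_apply, ← ofAdd_add, ← Int.cast_add]
    congr 2
    ring

theorem ex_ga : ex ga = Multiplicative.ofAdd 1 := by
  show Multiplicative.ofAdd ((vec ga 0 + vec ga 1 : ℤ) : ZMod 2) = _
  rw [vec_of]; rfl
theorem ex_gb : ex gb = Multiplicative.ofAdd 1 := by
  show Multiplicative.ofAdd ((vec gb 0 + vec gb 1 : ℤ) : ZMod 2) = _
  rw [vec_of]; rfl

theorem ex_even {w : F} (h : ex w = 1) : Even (vec w 0 + vec w 1) := by
  have h1 : ((vec w 0 + vec w 1 : ℤ) : ZMod 2) = 0 := congrArg Multiplicative.toAdd h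
  rw [ZMod.intCast_zmod_eq_zero_iff_dvd] at h1
  exact even_iff_two_dvd.2 h1

/-- the length modulo two -/
def pr : G7 →* Multiplicative (ZMod 2) :=
  AB.liftA ex 1 (by
    intro w
    have h : ex.comp al7.toMonoidHom = ex := by
      apply F2X.hom_ext
      · show ex (al7 ga) = _
        rw [al7_ga]
        simp only [map_mul, map_inv, ex_ga, ex_gb]
        decide
      · show ex (al7 gb) = _
        rw [al7_gb, ex_ga, ex_gb]
    rw [one_mul, inv_one, mul_one]
    exact DFunLike.congr_fun h w)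

theorem pr_iA (w : F) (n : ℤ) : pr (iA al7 w * tA al7 ^ n) = ex w := by
  rw [map_mul, map_zpow]
  unfold pr
  rw [AB.liftA_iA, AB.liftA_tA, one_zpow, mul_one]

/-- the homomorphism in the form of `EtaQ` -/
def et (η : PIC7.G6 →* G7) : PIC7.G6 →* GR (ct al7) := (eAR al7).toMonoidHom.comp η

theorem lev (x : GQ (-2) (-1)) (h : rdq (-2) (-1) 4 x = 1) : (x : PIC7.GG) ∈ PIC7.G6 := by
  have h1 : PIC7.r4 x = SLm (evq (-2) (-1) (RingHom.id (ZMod 4)) 2 (by decide)) (rdq (-2) (-1) 4 x) := by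
    apply G.SL_ext <;> rfl
  have h2 : PIC7.r2 x = SLm (evq (-2) (-1) (ZMod.castHom (by decide : 2 ∣ 4) (ZMod 2)) 1 (by decide))
      (rdq (-2) (-1) 4 x) := by
    apply G.SL_ext <;>
    · show evq (-2) (-1) (Int.castRingHom (ZMod 2)) 1 (by decide) _ =
        evq (-2) (-1) (ZMod.castHom (by decide : 2 ∣ 4) (ZMod 2)) 1 (by decide) (Qfm (-2) (-1) _ _)
      rw [evq_apply, evq_apply, Qfm_apply]
      simp
  show PIC7.r42 x ∈ PIC7.A6
  rw [PIC7.r42_apply, h1, h2, h, map_one, map_one]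
  exact PIC7.A6.one_mem

theorem etaQ {η : PIC7.G6 →* G7} (h : PIC7.Eta η) :
    EtaQ (a := -2) (b := -1) (ct al7) 4 (th PIC.cc) 1 PIC7.G6 (et η) where
  ker x := by
    rw [← h.ker x]
    exact (eAR al7).map_eq_one_iff
  fin := by
    have h2 : (pr.comp (eAR al7).symm.toMonoidHom).ker.FiniteIndex := Subgroup.finiteIndex_ker _
    have h1 : (pr.comp (eAR al7).symm.toMonoidHom).ker ≤ (et η).range := by
      intro x hx
      have hx' : pr ((eAR al7).symm x) = 1 := hx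
      obtain ⟨w, n, e⟩ := GA_cases al7 ((eAR al7).symm x)
      rw [e, pr_iA] at hx'
      obtain ⟨z, hz⟩ := h.sur w n (ex_even hx')
      refine ⟨z, ?_⟩
      show eAR al7 (η z) = x
      rw [hz, ← e, MulEquiv.apply_symm_apply]
    exact Subgroup.finiteIndex_of_le h1
  lev := lev
  ne := by decide
  par x hx := h.par x (eAR_par al7 PIC.cc (η x) hx)

theorem dat {η : PIC7.G6 →* G7} (h : PIC7.Eta η) :
    Dat (a := -2) (b := -1) (ct al7) 1 w7 4 (th PIC.cc) 1 PIC7.G6 (et η) where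
  neg := by norm_num
  one_le := le_rfl
  pos := pos
  fst := ⟨0, rfl⟩
  sgn := ⟨1, w7, fun i => by
    rw [← ct_of, pow_one, Units.val_one, zpow_one], by decide, Or.inl ⟨rfl, rfl⟩⟩
  conj := th_cc_conj PIC7.al7_cc
  eta := etaQ h
  ha := HA_ct PIC7.al7_cc
  loop := Loop_ct (u := [1, 0, 1]) (by decide) rfl _

/-- the data for the integers of `ℚ(√-7)` -/
theorem ex_dat : ∃ (ι : Type) (_ : Finite ι) (α : MulAut (FreeGroup ι)) (N : ℕ) (w : ι → List ι)
    (M : ℕ) (c g : FreeGroup ι) (G₀ : Subgroup (GQ (-2) (-1))) (η : G₀ →* GR α),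
    Dat α N w M c g G₀ η := by
  obtain ⟨η, h⟩ := PIC7.p_eta (PIC7.p_e1 PIC7.p_f6) (PIC7.p_e2 (PIC7.p_e1 PIC7.p_f6))
  exact ⟨Fin 2, inferInstance, _, _, _, _, _, _, _, _, dat h⟩

end Five7

end Pool.Agent.F8.BG
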