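import Pool.Agent.Lib.MP_305fdd_al.F8.BG.Five.Tr
import Pool.Agent.Lib.MP_305fdd_al.F8.BG.Mat4
import Pool.Agent.Lib.MP_305fdd_al.F8.Faith
import Pool.Agent.Lib.MP_305fdd_al.F8.P.G2h

/-!
# MP_305fdd_al, project CG: the data for the Eisenstein integers

The figure-eight knot group is a congruence subgroup of level `4`: the elements of `Γ(4)` are in its image, up to sign (`lev`). Modulo `4` the image of
the knot group is the union of the ten cosets `L j W`, `W` the group of the matrices `[[a, b], [c, d]] = 1` modulo `2` with `im (a + b + ω² c) = 0`.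
-/

set_option autoImplicit false

namespace Pool.Agent.F8.BG

open Pool.Agent.MP_305fdd_al Pool.Agent.Lib.MP_305fdd_al Pool.Agent.F2X Pool.Agent.F8
  Pool.Agent.F8.HN
open scoped QuadraticAlgebra

namespace Five3

/-- `ℤ[ω]` modulo four -/
abbrev E4 : Type := Es (ZMod 4)

/-- the elements of `W` -/
def inW (g : M4 E4) : Prop := 2 * g.1 = 2 ∧ 2 * g.2.1 = 0 ∧ 2 * g.2.2.1 = 0 ∧ 2 * g.2.2.2 = 2 ∧
  (g.1 + g.2.1 + ⟨-1, -1⟩ * g.2.2.1).im = 0

instance (g : M4 E4) : Decidable (inW g) := by unfold inW; infer_instance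

theorem z4_half : ∀ x : ZMod 4, 2 * x = 0 → ∃ y, x = 2 * y := by decide

theorem half {x : E4} (h : 2 * x = 0) : ∃ y, x = 2 * y := by
  have h1 : 2 * x.re = 0 := by
    have := congrArg QuadraticAlgebra.re h
    rwa [QuadraticAlgebra.re_mul, show (2 : E4).re = 2 from rfl,
      show (2 : E4).im = 0 from rfl, mul_zero, zero_mul, add_zero] at this
  have h2 : 2 * x.im = 0 := by
    have := congrArg QuadraticAlgebra.im h
    rw [QuadraticAlgebra.im_mul, show (2 : E4).re = 2 from rfl,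
      show (2 : E4).im = 0 from rfl] at this
    simpa using this
  obtain ⟨a, ha⟩ := z4_half _ h1
  obtain ⟨b, hb⟩ := z4_half _ h2
  refine ⟨⟨a, b⟩, ?_⟩
  apply QuadraticAlgebra.ext
  · rw [QuadraticAlgebra.re_mul, show (2 : E4).re = 2 from rfl,
      show (2 : E4).im = 0 from rfl, ha]; ring
  · rw [QuadraticAlgebra.im_mul, show (2 : E4).re = 2 from rfl,
      show (2 : E4).im = 0 from rfl, hb]; ring

theorem half' {x : E4} (h : 2 * x = 2) : ∃ y, x = 1 + 2 * y := by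
  obtain ⟨y, hy⟩ := half (x := x - 1) (by rw [mul_sub, h, mul_one, sub_self])
  exact ⟨y, by rw [← hy]; ring⟩

theorem four : (4 : E4) = 0 := by decide

theorem inW_mul {g h : M4 E4} (hg : inW g) (hh : inW h) : inW (M4.mul g h) := by
  obtain ⟨a, b, c, d⟩ := g
  obtain ⟨a', b', c', d'⟩ := h
  obtain ⟨h1, h2, h3, h4, h5⟩ := hg
  obtain ⟨k1, k2, k3, k4, k5⟩ := hh
  simp only at h1 h2 h3 h4 h5 k1 k2 k3 k4 k5
  obtain ⟨x, rfl⟩ := half' h1
  obtain ⟨y, rfl⟩ := half h2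
  obtain ⟨z, rfl⟩ := half h3
  obtain ⟨w, rfl⟩ := half' h4
  obtain ⟨x', rfl⟩ := half' k1
  obtain ⟨y', rfl⟩ := half k2
  obtain ⟨z', rfl⟩ := half k3
  obtain ⟨w', rfl⟩ := half' k4
  have f := four
  have e1 : (1 + 2 * x) * (1 + 2 * x') + 2 * y * (2 * z') = 1 + 2 * (x + x') := by
    linear_combination (x * x' + y * z') * f
  have e2 : (1 + 2 * x) * (2 * y') + 2 * y * (1 + 2 * w') = 2 * (y + y') := by
    linear_combination (x * y' + y * w') * f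
  have e3 : 2 * z * (1 + 2 * x') + (1 + 2 * w) * (2 * z') = 2 * (z + z') := by
    linear_combination (z * x' + w * z') * f
  have e4 : 2 * z * (2 * y') + (1 + 2 * w) * (1 + 2 * w') = 1 + 2 * (w + w') := by
    linear_combination (z * y' + w * w') * f
  unfold inW M4.mul
  simp only
  rw [e1, e2, e3, e4]
  refine ⟨?_, ?_, ?_, ?_, ?_⟩
  · linear_combination (x + x') * f
  · linear_combination (y + y') * f
  · linear_combination (z + z') * f
  · linear_combination (w + w') * f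
  · have e5 : 1 + 2 * (x + x') + 2 * (y + y') + ⟨-1, -1⟩ * (2 * (z + z')) =
      (1 + 2 * x + 2 * y + ⟨-1, -1⟩ * (2 * z)) + (1 + 2 * x' + 2 * y' + ⟨-1, -1⟩ * (2 * z')) - 1 := by
      ring
    rw [e5, QuadraticAlgebra.im_sub, QuadraticAlgebra.im_add, h5, k5]
    rfl

/-- the representatives -/
def L4 : Fin 10 → M4 E4 := ![
  (⟨1, 0⟩, ⟨0, 0⟩, ⟨0, 0⟩, ⟨1, 0⟩), (⟨1, 3⟩, ⟨1, 0⟩, ⟨0, 3⟩, ⟨1, 0⟩),
  (⟨0, 0⟩, ⟨2, 3⟩, ⟨3, 1⟩, ⟨1, 3⟩), (⟨3, 1⟩, ⟨2, 3⟩, ⟨3, 1⟩, ⟨0, 0⟩),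
  (⟨3, 0⟩, ⟨1, 0⟩, ⟨0, 3⟩, ⟨3, 1⟩), (⟨1, 0⟩, ⟨1, 0⟩, ⟨0, 0⟩, ⟨1, 0⟩),
  (⟨1, 3⟩, ⟨2, 3⟩, ⟨0, 3⟩, ⟨1, 3⟩), (⟨0, 0⟩, ⟨2, 3⟩, ⟨3, 1⟩, ⟨0, 0⟩),
  (⟨3, 1⟩, ⟨1, 0⟩, ⟨3, 1⟩, ⟨3, 1⟩), (⟨3, 0⟩, ⟨0, 0⟩, ⟨0, 3⟩, ⟨3, 0⟩)]

theorem L4_det : ∀ j, (L4 j).1 * (L4 j).2.2.2 - (L4 j).2.1 * (L4 j).2.2.1 = 1 := by decide

/-- the representatives -/
def L (j : Fin 10) : SL2 E4 := M4.mat (L4 j) (L4_det j)

/-- the elements which permute the cosets -/
def Sm : Submonoid (SL2 E4) where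
  carrier := {g | ∀ j, ∃ k, inW (M4.of ((L k)⁻¹ * g * L j))}
  one_mem' := by
    intro j
    refine ⟨j, ?_⟩
    rw [mul_one, inv_mul_cancel]
    decide
  mul_mem' := by
    intro g h hg hh j
    obtain ⟨k, hk⟩ := hh j
    obtain ⟨l, hl⟩ := hg k
    refine ⟨l, ?_⟩
    have e : (L l)⁻¹ * (g * h) * L j = ((L l)⁻¹ * g * L k) * ((L k)⁻¹ * h * L j) := by group
    rw [e, M4.of_mul]
    exact inW_mul hl hk

/-- the elements which permute the cosets -/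
def Sg : Subgroup (SL2 E4) where
  carrier := {g | g ∈ Sm ∧ g⁻¹ ∈ Sm}
  one_mem' := ⟨Sm.one_mem, by rw [inv_one]; exact Sm.one_mem⟩
  mul_mem' := by
    rintro g h ⟨a1, a2⟩ ⟨b1, b2⟩
    exact ⟨Sm.mul_mem a1 b1, by rw [mul_inv_rev]; exact Sm.mul_mem b2 a2⟩
  inv_mem' := by
    rintro g ⟨a1, a2⟩
    exact ⟨a2, by rw [inv_inv]; exact a1⟩

theorem of_L (k j : Fin 10) (g : SL2 E4) : M4.of ((L k)⁻¹ * g * L j) =
    M4.mul (M4.mul (M4.inv (L4 k)) (M4.of g)) (L4 j) := by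
  rw [M4.of_mul, M4.of_mul, M4.of_inv]
  rfl

/-- the permutations -/
def tA : Fin 10 → Fin 10 := ![5, 9, 8, 7, 6, 0, 4, 3, 2, 1]
/-- the permutations -/
def tB : Fin 10 → Fin 10 := ![9, 8, 7, 6, 5, 4, 3, 2, 1, 0]

/-- `a` -/
def a4 : M4 E4 := (1, 1, 0, 1)
/-- `b` -/
def b4 : M4 E4 := (1, 0, ⟨0, -1⟩, 1)

theorem of_ma : M4.of (ma E4) = a4 := rfl
theorem of_mb : M4.of (mb (om (ZMod 4))) = b4 := by decide

theorem chk_a : ∀ j, inW (M4.mul (M4.mul (M4.inv (L4 (tA j))) a4) (L4 j)) := by decide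
theorem chk_a' : ∀ j, inW (M4.mul (M4.mul (M4.inv (L4 (tA j))) (M4.inv a4)) (L4 j)) := by decide
theorem chk_b : ∀ j, inW (M4.mul (M4.mul (M4.inv (L4 (tB j))) b4) (L4 j)) := by decide
theorem chk_b' : ∀ j, inW (M4.mul (M4.mul (M4.inv (L4 (tB j))) (M4.inv b4)) (L4 j)) := by decide

theorem ma_mem : ma E4 ∈ Sg := by
  constructor
  · intro j
    exact ⟨tA j, by rw [of_L, of_ma]; exact chk_a j⟩
  · intro j
    exact ⟨tA j, by rw [of_L, M4.of_inv, of_ma]; exact chk_a' j⟩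

theorem mb_mem : mb (om (ZMod 4)) ∈ Sg := by
  constructor
  · intro j
    exact ⟨tB j, by rw [of_L, of_mb]; exact chk_b j⟩
  · intro j
    exact ⟨tB j, by rw [of_L, M4.of_inv, of_mb]; exact chk_b' j⟩

/-- reduction modulo four -/
def r4 : SL2 O →* SL2 E4 := SLm (Qd.map (-1) (Int.castRingHom (ZMod 4)))

theorem r4_aa : r4 (G.rO aa) = ma E4 := by
  rw [G.rO_aa]
  apply M4.of_inj
  decide

theorem r4_bb : r4 (G.rO bb) = mb (om (ZMod 4)) := by
  have h : G.rO bb = mb (om ℤ) := rho8_bb _ _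
  rw [h]
  apply M4.of_inj
  decide

theorem r4_mem (g : G8) : r4 (G.rO g) ∈ Sg := by
  refine G.G8_mem (r4.comp G.rO) Sg ?_ ?_ g
  · show r4 (G.rO aa) ∈ Sg
    rw [r4_aa]; exact ma_mem
  · show r4 (G.rO bb) ∈ Sg
    rw [r4_bb]; exact mb_mem

/-- the inverse of `k` modulo four -/
def k4 : M4 E4 := (0, ⟨0, -1⟩, ⟨-1, -1⟩, 0)

theorem of_mk2 : M4.inv (M4.of (r4 (mk2 ℤ))) = k4 := by decide

theorem chk_k : ∀ j, ¬ inW (M4.mul (M4.mul (M4.inv (L4 j)) k4) (L4 0)) ∧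
    ¬ inW (M4.mul (M4.mul (M4.inv (L4 j)) (M4.neg k4)) (L4 0)) := by decide

/-- `g k` is not `± 1` modulo four -/
theorem noK (g : G8) : r4 (G.rO g * mk2 ℤ) ≠ 1 ∧ r4 (G.rO g * mk2 ℤ) ≠ -1 := by
  obtain ⟨j, hj⟩ := (r4_mem g).1 0
  rw [of_L] at hj
  rw [map_mul]
  constructor
  · intro h
    have h1 : r4 (G.rO g) = (r4 (mk2 ℤ))⁻¹ := eq_inv_of_mul_eq_one_left h
    rw [h1, M4.of_inv, of_mk2] at hj
    exact (chk_k j).1 hj
  · intro h
    have h1 : r4 (G.rO g) = -(r4 (mk2 ℤ))⁻¹ := by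
      rw [← mul_inv_cancel_right (r4 (G.rO g)) (r4 (mk2 ℤ)), h, neg_mul, one_mul]
    rw [h1, M4.of_neg, M4.of_inv, of_mk2] at hj
    exact (chk_k j).2 hj

theorem r4_neg (g : SL2 O) : r4 (-g) = -r4 g := by
  apply G.SL_ext
  · show Qd.map (-1) _ ((-g).val 0 0) = (-r4 g).val 0 0
    rw [G.SL_neg, G.SL_neg, map_neg]; rfl
  · show Qd.map (-1) _ ((-g).val 0 1) = (-r4 g).val 0 1
    rw [G.SL_neg, G.SL_neg, map_neg]; rfl
  · show Qd.map (-1) _ ((-g).val 1 0) = (-r4 g).val 1 0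
    rw [G.SL_neg, G.SL_neg, map_neg]; rfl
  · show Qd.map (-1) _ ((-g).val 1 1) = (-r4 g).val 1 1
    rw [G.SL_neg, G.SL_neg, map_neg]; rfl

theorem pj_inj {g h : SL2 O} (e : G.pj g = G.pj h) : g = h ∨ g = -h := by
  have h1 : G.pj (g * h⁻¹) = 1 := by rw [map_mul, map_inv, e, mul_inv_cancel]
  rcases G.pj_eq_one h1 with h2 | h2
  · left; exact mul_inv_eq_one.1 h2
  · right; rw [mul_inv_eq_iff_eq_mul] at h2; rw [h2, neg_mul, one_mul]

/-- the elements of `N2` -/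
theorem N2_cases (y : N2) : (∃ g, y = i8 g) ∨ ∃ g, y = i8 g * kk := by
  obtain ⟨g, e⟩ := y
  have he : e = Multiplicative.ofAdd 0 ∨ e = Multiplicative.ofAdd 1 := by
    have : ∀ i : ZMod 2, i = 0 ∨ i = 1 := by decide
    exact this e
  rcases he with rfl | rfl
  · left; exact ⟨g, rfl⟩
  · right
    refine ⟨g, ?_⟩
    have h := SemidirectProduct.inl_left_mul_inr_right (⟨g, Multiplicative.ofAdd 1⟩ : N2)
    exact h.symm

/-- an element of `N2` whose image is `± 1` modulo four, multiplied with `rO g`, is in `G8` -/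
theorem N2_of {y : N2} {x : SL2 O} (h : G.Th y = G.pj x) (g₀ : G8)
    (hx : r4 x = r4 (G.rO g₀)) : ∃ g, y = i8 g := by
  rcases N2_cases y with h1 | ⟨g, rfl⟩
  · exact h1
  · exfalso
    rw [map_mul, G.Th_i8, G.Th_kk, ← map_mul] at h
    have h2 : r4 (G.rO (g₀⁻¹ * g) * mk2 ℤ) = 1 ∨ r4 (G.rO (g₀⁻¹ * g) * mk2 ℤ) = -1 := by
      rw [map_mul G.rO, mul_assoc, map_mul r4]
      rcases pj_inj h with e | e
      · left
        rw [e, hx, ← map_mul, ← map_mul, inv_mul_cancel, map_one, map_one]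
      · right
        rw [e, r4_neg, hx, mul_neg, ← map_mul, ← map_mul, inv_mul_cancel, map_one, map_one]
    rcases h2 with e | e
    · exact (noK _).1 e
    · exact (noK _).2 e

/-- the image of the figure-eight knot group, up to sign -/
def G3 (Ψ : Npre →* N2) : Subgroup (SL2 O) where
  carrier := {x | ∃ h : x ∈ Npre, ep2 (Ψ ⟨x, h⟩) = 1}
  one_mem' := ⟨Npre.one_mem, by
    rw [show (⟨1, Npre.one_mem⟩ : Npre) = 1 from rfl, map_one, map_one]⟩
  mul_mem' := by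
    rintro x y ⟨hx, ex⟩ ⟨hy, ey⟩
    refine ⟨Npre.mul_mem hx hy, ?_⟩
    rw [show (⟨x * y, Npre.mul_mem hx hy⟩ : Npre) = ⟨x, hx⟩ * ⟨y, hy⟩ from rfl, map_mul, map_mul, ex,
      ey, one_mul]
  inv_mem' := by
    rintro x ⟨hx, ex⟩
    refine ⟨Npre.inv_mem hx, ?_⟩
    rw [show (⟨x⁻¹, Npre.inv_mem hx⟩ : Npre) = (⟨x, hx⟩ : Npre)⁻¹ from rfl, map_inv, map_inv, ex,
      inv_one]

/-- the element of `Npre` -/
def toN (Ψ : Npre →* N2) (x : G3 Ψ) : Npre := ⟨x.val, x.2.fst⟩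

/-- the homomorphism to the figure-eight knot group -/
def et0 (Ψ : Npre →* N2) : G3 Ψ →* G8 where
  toFun x := (Ψ (toN Ψ x)).left
  map_one' := by
    rw [show toN Ψ 1 = 1 from rfl, map_one]; rfl
  map_mul' x y := by
    rw [show toN Ψ (x * y) = toN Ψ x * toN Ψ y from rfl, map_mul, SemidirectProduct.mul_left]
    have h : (Ψ (toN Ψ x)).right = 1 := x.2.snd
    rw [h, map_one]; rfl

theorem et0_i8 (Ψ : Npre →* N2) (x : G3 Ψ) : Ψ (toN Ψ x) = i8 (et0 Ψ x) := by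
  apply SemidirectProduct.ext
  · rfl
  · exact x.2.snd

theorem rO_Npre (g : G8) : G.rO g ∈ Npre := by
  refine G.G8_mem G.rO Npre ?_ ?_ g
  · show r2 (G.rO aa) ∈ D5
    rw [G.rO_aa, G.r2_ma]
    exact Subgroup.subset_closure (Or.inl rfl)
  · show r2 (G.rO bb) ∈ D5
    rw [show G.rO bb = mb (om ℤ) from rho8_bb _ _, G.r2_mu]
    exact Subgroup.subset_closure (Or.inr rfl)

section

variable {Ψ : Npre →* N2} (hΨ : ∀ x : Npre, G.Th (Ψ x) = G.pj x.val)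

include hΨ

theorem et0_pj (x : G3 Ψ) : G.pj x.val = G.pj (G.rO (et0 Ψ x)) := by
  rw [← G.Th_i8, ← et0_i8, hΨ]; rfl

theorem et0_ker (x : G3 Ψ) : et0 Ψ x = 1 ↔ x.val = 1 ∨ x.val = -1 := by
  have h := et0_pj hΨ x
  constructor
  · intro e
    rw [e, map_one, map_one] at h
    exact G.pj_eq_one h
  · intro e
    apply G.rO_faithful
    apply G.pj_eq_one
    rw [← h]
    rcases e with e | e
    · rw [e, map_one]
    · rw [e, G.pj_neg, map_one]

theorem mem_G3 {x : SL2 O} (hx : x ∈ Npre) (g : G8) (h : r4 x = r4 (G.rO g)) : x ∈ G3 Ψ := by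
  refine ⟨hx, ?_⟩
  obtain ⟨g', hg'⟩ := N2_of (hΨ ⟨x, hx⟩) g h
  rw [hg']; rfl

theorem et0_sur (g : G8) : ∃ x : G3 Ψ, et0 Ψ x = g := by
  refine ⟨⟨G.rO g, mem_G3 hΨ (rO_Npre g) g rfl⟩, ?_⟩
  have h := et0_pj hΨ ⟨G.rO g, mem_G3 hΨ (rO_Npre g) g rfl⟩
  generalize et0 Ψ _ = g' at h
  have h1 : G.pj (G.rO (g⁻¹ * g')) = 1 := by
    rw [map_mul, map_mul, ← h, ← map_mul, ← map_mul, inv_mul_cancel, map_one, map_one]
  have h2 := G.rO_faithful _ (G.pj_eq_one h1)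
  exact (inv_mul_eq_one.1 h2).symm

theorem lev (x : GQ (-1) (-1)) (h : rdq (-1) (-1) 4 x = 1) : (x : SL2 O) ∈ G3 Ψ := by
  have h1 : r4 x = 1 := by
    have h2 : ∀ i k, Qfm (-1) (-1) (Int.castRingHom (ZMod 4)) (x.val i k) =
        (1 : SL2 (Qf (-1) (-1) (ZMod 4))).val i k := fun i k => by rw [← h]; rfl
    have h3 : ∀ (i k : Fin 2) (u v : ZMod 4), (1 : SL2 (Qf (-1) (-1) (ZMod 4))).val i k = ⟨u, v⟩ →
        (1 : SL2 E4).val i k = ⟨u, v⟩ := by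
      intro i k u v e
      have e1 := congrArg QuadraticAlgebra.re e
      have e2 := congrArg QuadraticAlgebra.im e
      apply QuadraticAlgebra.ext
      · rw [← e1]
        fin_cases i <;> fin_cases k <;> rfl
      · rw [← e2]
        fin_cases i <;> fin_cases k <;> rfl
    apply Subtype.ext
    ext1 i k
    exact (h3 i k _ _ (h2 i k).symm).symm
  have h2 : r2 x = SLm (Qd.map (-1) (ZMod.castHom (by decide : 2 ∣ 4) (ZMod 2))) (r4 x) := by
    apply G.SL_ext <;>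
    · show Qd.map (-1) _ _ = Qd.map (-1) _ (Qd.map (-1) _ _)
      rw [Qd.map_apply, Qd.map_apply, Qd.map_apply]
      apply QuadraticAlgebra.ext <;> simp
  refine mem_G3 hΨ ?_ 1 ?_
  · show r2 x ∈ D5
    rw [h2, h1, map_one]
    exact D5.one_mem
  · rw [h1, map_one, map_one]

end

/-- the homomorphism in the form of `EtaQ` -/
def et (Ψ : Npre →* N2) : G3 Ψ →* GR (ct phi) :=
  MonoidHom.comp (N := GA phi) (eAR phi).toMonoidHom (et0 Ψ)

theorem phi_cc : phi PIC.cc = PIC.cc := by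
  unfold PIC.cc
  rw [map_mul, map_mul, map_mul, map_inv, map_inv, phi_ga, phi_gb]
  group

/-- upper triangular matrices -/
def UT : Subgroup (SL2 O) where
  carrier := {g | g.val 1 0 = 0}
  one_mem' := G.one10
  mul_mem' := by
    intro g h hg hh
    show (g * h).val 1 0 = 0
    have hg' : g.val 1 0 = 0 := hg
    have hh' : h.val 1 0 = 0 := hh
    rw [G.SL_mul, hg', hh', zero_mul, mul_zero, add_zero]
  inv_mem' := by
    intro g hg
    have hg' : g.val 1 0 = 0 := hg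
    have h := M4.of_inv g
    have h1 : (g⁻¹).val 1 0 = -g.val 1 0 := congrArg (fun z : M4 O => z.2.2.1) h
    show (g⁻¹).val 1 0 = 0
    rw [h1, hg', neg_zero]

theorem cc_UT : G.rO (SemidirectProduct.inl PIC.cc) ∈ UT := by
  have h : (SemidirectProduct.inl PIC.cc : G8) = uu * vv⁻¹ * uu⁻¹ * vv := by
    unfold PIC.cc uu vv
    simp only [map_mul, map_inv]
  rw [h, map_mul, map_mul, map_mul, map_inv, map_inv, G.rO_uu, G.rO_vv, G.mu_inv, G.mv_inv]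
  have h1 : M4.of (G.mu * G.mv' * G.mu' * G.mv) =
      M4.mul (M4.mul (M4.mul (M4.of G.mu) (M4.of G.mv')) (M4.of G.mu')) (M4.of G.mv) := by
    rw [M4.of_mul, M4.of_mul, M4.of_mul]
  exact (congrArg (fun z : M4 O => z.2.2.1) h1).trans (by decide)

theorem etaQ {Ψ : Npre →* N2} (hΨ : ∀ x : Npre, G.Th (Ψ x) = G.pj x.val) :
    EtaQ (a := -1) (b := -1) (ct phi) 4 (th PIC.cc) 1 (G3 Ψ) (et Ψ) where
  ker x := by
    rw [← et0_ker hΨ x]
    exact (eAR phi).map_eq_one_iff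
  fin := by
    have h : (et Ψ).range = ⊤ := by
      rw [MonoidHom.range_eq_top]
      intro z
      obtain ⟨x, hx⟩ := et0_sur hΨ ((eAR phi).symm z)
      refine ⟨x, ?_⟩
      show eAR phi (et0 Ψ x) = z
      rw [hx, MulEquiv.apply_symm_apply]
    rw [h]
    infer_instance
  lev := lev hΨ
  ne := by decide
  par x hx := by
    have h := eAR_par phi PIC.cc (et0 Ψ x) hx
    have h1 : Subgroup.closure {iA phi PIC.cc, HN.tA phi} ≤ UT.comap G.rO := by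
      rw [Subgroup.closure_le]
      rintro z (rfl | rfl)
      · exact cc_UT
      · show G.rO aa ∈ UT
        rw [G.rO_aa]
        rfl
    have h2 : (G.rO (et0 Ψ x)).val 1 0 = 0 := h1 h
    rcases pj_inj (et0_pj hΨ x) with e | e
    · rw [e]; exact h2
    · rw [e]
      show (-G.rO (et0 Ψ x)).val 1 0 = 0
      rw [G.SL_neg, h2, neg_zero]

/-- the words -/
def w3 : Fin 2 → List (Fin 2) := ![[0, 1], [1, 0, 1]]

theorem ct_of (i : Fin 2) : (ct phi ^ 1) (FreeGroup.of i) = pw (w3 i) := by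
  rw [pow_one]
  fin_cases i
  · show ct phi ga = pw [0, 1]
    rw [← th_x0, ct_th, phi_x0, map_mul, th_x0, th_ga]
    simp only [pw_cons, pw_nil, mul_one]
  · show ct phi gb = pw [1, 0, 1]
    rw [← th_ga, ct_th, phi_ga', map_mul, map_mul, th_x0, th_ga]
    simp only [pw_cons, pw_nil, mul_one, mul_assoc]

theorem pos : Pos (ct phi ^ 1) w3 :=
  Pos_two ct_of (by decide) (by decide) (Turn.base 0 0 1 (by decide)) (Turn.base 1 1 0 (by decide))
    (Turn.step 0 1 1 1 (Turn.base 0 0 1 (by decide)) (by decide) (by decide))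

theorem dat {Ψ : Npre →* N2} (hΨ : ∀ x : Npre, G.Th (Ψ x) = G.pj x.val) :
    Dat (a := -1) (b := -1) (ct phi) 1 w3 4 (th PIC.cc) 1 (G3 Ψ) (et Ψ) where
  neg := by norm_num
  one_le := le_rfl
  pos := pos
  fst := ⟨0, rfl⟩
  sgn := ⟨1, w3, fun i => by
    rw [← ct_of, pow_one, Units.val_one, zpow_one], by decide, Or.inl ⟨rfl, rfl⟩⟩
  conj := th_cc_conj phi_cc
  eta := etaQ hΨ
  ha := HA_ct phi_cc
  loop := Loop_ct (u := [1, 0]) (by decide) rfl _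

/-- the data for the Eisenstein integers -/
theorem ex_dat : ∃ (ι : Type) (_ : Finite ι) (α : MulAut (FreeGroup ι)) (N : ℕ) (w : ι → List ι)
    (M : ℕ) (c g : FreeGroup ι) (G₀ : Subgroup (GQ (-1) (-1))) (η : G₀ →* GR α),
    Dat α N w M c g G₀ η := by
  obtain ⟨Ψ, h⟩ := HN.p_G2
  exact ⟨Fin 2, inferInstance, _, _, _, _, _, _, _, _, dat h⟩

end Five3

end Pool.Agent.F8.BG
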