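import Pool.Agent.Lib.MP_305fdd_al.F8.BG.Five.Data
import Pool.Agent.Lib.MP_305fdd_al.F8.PIC.Stm
import Pool.Agent.Lib.MP_305fdd_al.F8.PIC.P_ha

/-!
# MP_305fdd_al, project CG: from `GA α` to `GR α'`, for the free group of rank two

`F` has the positive basis `x0 = v⁻¹ u`, `u`. `th : F → F` maps it to the basis `of 0`, `of 1`; `α' = th α th⁻¹`, `GA α ≃ GR α'`.
-/

set_option autoImplicit false

namespace Pool.Agent.F8.BG

open Pool.Agent.MP_305fdd_al Pool.Agent.Lib.MP_305fdd_al Pool.Agent.F2X Pool.Agent.F8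
  Pool.Agent.F8.HN
open scoped QuadraticAlgebra

/-- `u ↦ of 1`, `v ↦ of 1 * (of 0)⁻¹`, so `x0 ↦ of 0` -/
def th : MulAut F := mkA gb (gb * ga⁻¹) (gb⁻¹ * ga) ga (by simp [mul_assoc]) (by simp) (by simp) (by simp)

theorem th_ga : th ga = gb := by unfold th; rw [mkA_apply, lf_ga]
theorem th_gb : th gb = gb * ga⁻¹ := by unfold th; rw [mkA_apply, lf_gb]
theorem th_x0 : th x0 = ga := by
  unfold x0
  rw [map_mul, map_inv, th_ga, th_gb]
  group

/-- the automorphism in the positive basis -/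
def ct (α : MulAut F) : MulAut F := th * α * th⁻¹

theorem ct_th (α : MulAut F) (w : F) : ct α (th w) = th (α w) := by
  show th (α (th⁻¹ (th w))) = _
  rw [MulAut.inv_apply_self]

theorem ct_zpow (α : MulAut F) (n : ℤ) : ct α ^ n = ct (α ^ n) := conj_zpow

/-- the isomorphism -/
def eAR (α : MulAut F) : GA α ≃* GR (ct α) :=
  SemidirectProduct.congr th (MulEquiv.refl _) (by
    intro n
    ext w
    show th ((zpowersHom (MulAut F) α n) w) = (zpowersHom (MulAut F) (ct α) n) (th w)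
    rw [zpowersHom_apply, zpowersHom_apply, ct_zpow, ct_th])

theorem eAR_iA (α : MulAut F) (w : F) : eAR α (iA α w) = iR (ct α) (th w) := rfl
theorem eAR_tA (α : MulAut F) : eAR α (tA α) = tR (ct α) := rfl

/-- the peripheral subgroup -/
theorem eAR_par (α : MulAut F) (c : F) (x : GA α)
    (h : eAR α x ∈ Subgroup.closure {iR (ct α) (th c), iR (ct α) 1 * tR (ct α)}) :
    x ∈ Subgroup.closure {iA α c, tA α} := by
  have h1 : Subgroup.closure {iR (ct α) (th c), iR (ct α) 1 * tR (ct α)} ≤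
      (Subgroup.closure {iA α c, tA α}).map (eAR α).toMonoidHom := by
    rw [Subgroup.closure_le]
    rintro z (rfl | rfl)
    · exact ⟨iA α c, Subgroup.subset_closure (Or.inl rfl), rfl⟩
    · refine ⟨tA α, Subgroup.subset_closure (Or.inr rfl), ?_⟩
      rw [map_one, one_mul]; rfl
  obtain ⟨y, hy, e⟩ := h1 h
  rw [← (eAR α).injective e]
  exact hy

/-- too many cocycles -/
theorem HA_ct {α : MulAut F} (h : α PIC.cc = PIC.cc) : HA (ct α) (th PIC.cc) 1 := by
  intro k W _ _ _ _ σ lam h1 h2 h3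
  obtain ⟨z, hz, hn⟩ := PIC.p_ha α h k W (σ.comp (eAR α).toMonoidHom) lam
    (fun x => h1 x) (fun x => by
      have := h2 x
      rw [map_one, one_mul] at this
      exact this) (by
      obtain ⟨y, x, hx⟩ := h3
      refine ⟨(eAR α).symm y, x, ?_⟩
      show lam (σ (eAR α ((eAR α).symm y)) x) ≠ lam x
      rw [MulEquiv.apply_symm_apply]
      exact hx)
  refine ⟨fun y => z ((eAR α).symm y), ?_, ?_⟩
  · intro y y'
    show z ((eAR α).symm (y * y')) = z ((eAR α).symm y) + σ y (z ((eAR α).symm y'))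
    rw [map_mul, hz]
    show _ + σ (eAR α ((eAR α).symm y)) _ = _
    rw [MulEquiv.apply_symm_apply]
  · rintro ⟨f, hf⟩
    apply hn
    refine ⟨f, fun x => ?_⟩
    have h4 : z ((eAR α).symm (eAR α x)) = f - σ (eAR α x) f := hf (eAR α x)
    rw [MulEquiv.symm_apply_apply] at h4
    exact h4

/-- the parabolic loop `u t u⁻¹` -/
theorem Loop_ct {α : MulAut F} {w : Fin 2 → List (Fin 2)} {u : List (Fin 2)} (hu : u ≠ [])
    (hw : w 1 = u ++ [1]) (c : F) : Loop (ct α) 1 w c 1 :=
  ⟨1, u, [], 0, hu, hw, by rw [pw_nil, map_one, one_mul, zpow_zero, one_mul, one_mul]⟩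

theorem th_cc_conj {α : MulAut F} (h : α PIC.cc = PIC.cc) :
    (1 : F) * ct α (th PIC.cc) * 1⁻¹ = th PIC.cc := by
  rw [ct_th, h]; group

/-- positivity for two letters -/
theorem Pos_two {β : MulAut F} {w : Fin 2 → List (Fin 2)} (h : ∀ i, β (FreeGroup.of i) = pw (w i))
    (h00 : 1 ∈ w 0) (h10 : 0 ∈ w 1) (t01 : Turn w 0 1) (t10 : Turn w 1 0) (t11 : Turn w 1 1) :
    Pos β w where
  eq := h
  irr i j := by
    fin_cases i <;> fin_cases j
    · exact Relation.ReflTransGen.refl
    · exact Relation.ReflTransGen.single h00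
    · exact Relation.ReflTransGen.single h10
    · exact Relation.ReflTransGen.refl
  con x y := by
    have e : ∀ b a : Fin 2, Turn w b a → Relation.EqvGen
        (fun x y : Fin 2 ⊕ Fin 2 => ∃ b a, x = Sum.inl b ∧ y = Sum.inr a ∧ Turn w b a)
        (Sum.inl b) (Sum.inr a) := fun b a h => Relation.EqvGen.rel _ _ ⟨b, a, rfl, rfl, h⟩
    have c : ∀ x : Fin 2 ⊕ Fin 2, Relation.EqvGen
        (fun x y : Fin 2 ⊕ Fin 2 => ∃ b a, x = Sum.inl b ∧ y = Sum.inr a ∧ Turn w b a) x
        (Sum.inl 1) := by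
      intro x
      rcases x with i | i
      · fin_cases i
        · exact ((e 0 1 t01).trans _ _ _ ((e 1 1 t11).symm _ _))
        · exact Relation.EqvGen.refl _
      · fin_cases i
        · exact (e 1 0 t10).symm _ _
        · exact (e 1 1 t11).symm _ _
    exact (c x).trans _ _ _ ((c y).symm _ _)

end Pool.Agent.F8.BG
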