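import Pool.Agent.Lib.MP_305fdd_al.F8.BG.Five.Data
import Pool.Agent.Lib.MP_305fdd_al.F8.BG.D2.Etq
import Pool.Agent.Lib.MP_305fdd_al.F8.BG.D11.P_eta
import Pool.Agent.Lib.MP_305fdd_al.F8.BG.D11.Pos11

/-!
# MP_305fdd_al, project CG: the data for `ℤ[√-2]` and for the integers of `ℚ(√-11)`
-/

set_option autoImplicit false

namespace Pool.Agent.F8.BG

open Pool.Agent.MP_305fdd_al Pool.Agent.Lib.MP_305fdd_al Pool.Agent.F8
open scoped QuadraticAlgebra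

/-- loops for `N = 2` -/
theorem Loop_two {ι : Type} {α : MulAut (FreeGroup ι)} {w : ι → List ι} {c g : FreeGroup ι} (i : ι)
    (u v : List ι) (k : ℤ) (hu : u ≠ []) (hw : w i = u ++ i :: v)
    (h : pw v = c ^ k * (g * α g)) : Loop α 2 w c g := by
  refine ⟨i, u, v, k, hu, hw, ?_⟩
  have h1 : (iR α g * tR α) ^ 2 = iR α (g * α g) * tR α ^ 2 := by
    rw [map_mul, ← tR_conj, pow_two, pow_two]; group
  rw [h, h1, map_mul, map_zpow, mul_assoc]

namespace Five2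

open D2

theorem loop : Loop al2 2 D2.w2 cc gg := by
  refine Loop_two 0 [4] [3, 4, 0] (-1) (by decide) rfl ?_
  unfold cc gg
  simp only [map_mul, map_inv, al2_0, al2_4, pw_cons, pw_nil]
  group

/-- the words of `al2`, up to inversion -/
def v2 : Fin 5 → List (Fin 5) := ![[4, 1], [4, 0], [4], [1, 2], [3, 4, 0]]

theorem neg2 (i : Fin 5) : al2 (FreeGroup.of i) = pw (v2 i) ^ ((-1 : ℤˣ) : ℤ) := by
  rw [Units.val_neg, Units.val_one, zpow_neg_one]
  fin_cases i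
  · show al2 (y 0) = (pw [4, 1])⁻¹
    rw [al2_0]; simp only [pw_cons, pw_nil]; group
  · show al2 (y 1) = (pw [4, 0])⁻¹
    rw [al2_1]; simp only [pw_cons, pw_nil]; group
  · show al2 (y 2) = (pw [4])⁻¹
    rw [al2_2]; simp only [pw_cons, pw_nil]; group
  · show al2 (y 3) = (pw [1, 2])⁻¹
    rw [al2_3]; simp only [pw_cons, pw_nil]; group
  · show al2 (y 4) = (pw [3, 4, 0])⁻¹
    rw [al2_4]; simp only [pw_cons, pw_nil]; group

theorem dat {η : G0 →* G2} (h : Eta2 η) : Dat (a := -2) (b := 0) al2 2 D2.w2 18 cc gg G0 η where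
  neg := by norm_num
  one_le := by norm_num
  pos := pos2
  fst := ⟨4, rfl⟩
  sgn := ⟨-1, v2, neg2, by decide, Or.inr ⟨rfl, rfl⟩⟩
  conj := cc_conj
  eta := etaQ h
  ha := HA_of_prim cc_prim cc_conj
  loop := loop

/-- the data for `ℤ[√-2]` -/
theorem ex_dat : ∃ (ι : Type) (_ : Finite ι) (α : MulAut (FreeGroup ι)) (N : ℕ) (w : ι → List ι)
    (M : ℕ) (c g : FreeGroup ι) (G₀ : Subgroup (GQ (-2) 0)) (η : G₀ →* GR α),
    Dat α N w M c g G₀ η := by
  obtain ⟨η, h⟩ := exEta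
  exact ⟨Fin 5, inferInstance, _, _, _, _, _, _, _, _, dat h⟩

end Five2

namespace Five11

open D11

theorem loop : Loop al11 2 w11 cc gg := by
  refine Loop_two 1 [0, 4, 4, 3, 0, 4, 3, 5, 0, 4, 3, 0, 2, 1, 0, 4, 3, 0, 2, 2, 1, 0, 4, 3, 0, 2]
    [1, 0, 4, 3, 0, 2, 1, 1, 0, 4, 3, 0, 2, 1, 0, 4, 3] 1 (by decide) rfl ?_
  have h1 : al11 gg = FreeGroup.mk (FreeGroup.reduce (sbw W11 [(1, false), (2, false), (0, false)])) :=
    autw_mk _ _ _ _ _
  rw [h1, zpow_one, pw_mk]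
  unfold gg cc
  rw [FreeGroup.mul_mk, FreeGroup.mul_mk]
  apply FreeGroup.reduce.exact
  decide

/-- the words of `al11`, up to inversion -/
def v11 : Fin 6 → List (Fin 6) := ![[0, 2, 1, 0, 4, 3], [0, 2, 2, 1, 0, 4, 3], [0, 2, 1, 1, 0, 4, 3],
  [0, 4, 4, 3, 0, 4, 3], [5, 0, 4, 3], [0, 4, 4, 3]]

theorem neg11 (i : Fin 6) : al11 (FreeGroup.of i) = pw (v11 i) ^ ((-1 : ℤˣ) : ℤ) := by
  rw [Units.val_neg, Units.val_one, zpow_neg_one, pw_mk, FreeGroup.inv_mk]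
  have h1 : al11 (FreeGroup.of i) = FreeGroup.mk (W11 i) := autw_of _ _ _ _ i
  rw [h1]
  congr 1
  revert i
  decide

theorem dat {η : G0 →* N11} (h : Eta η) : Dat (a := -3) (b := 1) al11 2 w11 2 cc gg G0 η where
  neg := by norm_num
  one_le := by norm_num
  pos := pos11
  fst := ⟨0, rfl⟩
  sgn := ⟨-1, v11, neg11, by decide, Or.inr ⟨rfl, rfl⟩⟩
  conj := cc_conj
  eta := h.q
  ha := HA_of_prim cc_prim cc_conj
  loop := loop

/-- the data for the integers of `ℚ(√-11)` -/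
theorem ex_dat : ∃ (ι : Type) (_ : Finite ι) (α : MulAut (FreeGroup ι)) (N : ℕ) (w : ι → List ι)
    (M : ℕ) (c g : FreeGroup ι) (G₀ : Subgroup (GQ (-3) 1)) (η : G₀ →* GR α),
    Dat α N w M c g G₀ η := by
  obtain ⟨η, h⟩ := p_eta
  exact ⟨Fin 6, inferInstance, _, _, _, _, _, _, _, _, dat h⟩

end Five11

end Pool.Agent.F8.BG
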